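import Mathlib
import Pool.Agent.W78.EG.Fin

/-!
Cancellation of the Liouville function, and equidistribution modulo every `k` of the number of prime
factors, at the values `f(m)` of all positive quadratic polynomials `f` whose discriminant is one of
`-3, -4, -7, -8, -11, -19, -43, -67, -163`, in all residue classes, on logarithmic average, with the
weights `w(m) = ∑_{d d' = f(m)} 1/max(d,d')`.

Method: pairs of elements of determinant `1` in the imaginary quadratic order of class number one,
Tao's entropy decrement argument on the Farey tree of its primitive elements, a large sieve estimate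
for prime determinants, and the Matomaki-Radziwill theorem for the angles of the elements in residue
classes.
-/

set_option autoImplicit false

namespace Pool.Agent.Results.MP_648c71_nt.QuadraticLogCancellation

open Finset Filter ArithmeticFunction

/-- the value `f(m) = a m^2 + b m + e` as a natural number -/
def val (a b e : ℤ) (m : ℕ) : ℕ := (a * (m : ℤ) ^ 2 + b * m + e).toNat

/-- the weight `w(m) = ∑_{d | f(m)} 1/max(d, f(m)/d)` -/
noncomputable def w (a b e : ℤ) (m : ℕ) : ℝ :=
  ∑ d ∈ Nat.divisors (val a b e m), 1 / ((max d (val a b e m / d) : ℕ) : ℝ)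

/-- Let `f = a x^2 + b x + e` have `a > 0` and discriminant one of
`-3, -4, -7, -8, -11, -19, -43, -67, -163`, and let `k, q ≥ 1`, `u ≥ 0`. With
`w(m) = ∑_{d | f(m)} 1/max(d, f(m)/d)`:

* for each residue `j` modulo `k` the sum of `w(m)` over the `m ≤ N` with `m ≡ u mod q` and
  `Ω(f(m)) ≡ j mod k` is `(1/k + o(1))` times the sum of `w(m)` over the `m ≤ N` with `m ≡ u mod q`;
* for every root of unity `z ≠ 1`, and in particular for `z = -1` (where `z^Ω(f(m))` is the Liouville
  function of `f(m)`), the sum of `z^Ω(f(m)) w(m)` over the `m ≤ N` with `m ≡ u mod q` is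
  `o(∑_{m ≤ N, m ≡ u mod q} w(m))`;
* the sum of `w(m)` over the `m ≤ N` with `m ≡ u mod q` is at least `c log N` for some `c > 0` and all
  large `N`. -/
theorem result (a b e : ℤ) (ha : 0 < a)
    (hD : b ^ 2 - 4 * a * e ∈ ({-3, -4, -7, -8, -11, -19, -43, -67, -163} : Finset ℤ))
    (k q u : ℕ) (hk : 1 ≤ k) (hq : 1 ≤ q) :
    (∀ j : ℕ, Tendsto (fun N : ℕ =>
      (∑ m ∈ (Icc 1 N).filter (fun m => m ≡ u [MOD q] ∧ cardFactors (val a b e m) ≡ j [MOD k]),
        w a b e m) /
      ∑ m ∈ (Icc 1 N).filter (fun m => m ≡ u [MOD q]), w a b e m) atTop (nhds (1 / (k : ℝ)))) ∧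
    (∀ z : ℂ, z ^ k = 1 → z ≠ 1 → Tendsto (fun N : ℕ =>
      (∑ m ∈ (Icc 1 N).filter (fun m => m ≡ u [MOD q]),
        z ^ cardFactors (val a b e m) * (w a b e m : ℂ)) /
      ∑ m ∈ (Icc 1 N).filter (fun m => m ≡ u [MOD q]), (w a b e m : ℂ)) atTop (nhds 0)) ∧
    ∃ c : ℝ, 0 < c ∧ ∃ N₀ : ℕ, ∀ N : ℕ, N₀ ≤ N →
      c * Real.log N ≤ ∑ m ∈ (Icc 1 N).filter (fun m => m ≡ u [MOD q]), w a b e m := by
  have hD' : b ^ 2 - 4 * a * e ∈ Pool.Agent.W78.EG.disc9 := by
    simp only [Finset.mem_insert, Finset.mem_singleton] at hD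
    rcases hD with h | h | h | h | h | h | h | h | h <;> rw [h] <;>
      norm_num [Pool.Agent.W78.EG.disc9]
  obtain ⟨h1, h2⟩ := Pool.Agent.W78.EG.finl9 (a := a) (b := b) (e := e) ha hD' (k := k) (q := q)
    (u := u) hk hq
  refine ⟨h1, fun z hz hz1 => ?_, h2⟩
  -- from the residues to the roots of unity
  have hk0 : k ≠ 0 := by omega
  have hsum : ∑ j ∈ range k, z ^ j = 0 := by
    have h3 := geom_sum_mul z k
    rw [hz, sub_self] at h3
    exact (mul_eq_zero.1 h3).resolve_right (sub_ne_zero.2 hz1)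
  have h4 : Tendsto (fun N : ℕ => ∑ j ∈ range k, z ^ j * (((∑ m ∈ (Icc 1 N).filter
      (fun m => m ≡ u [MOD q] ∧ cardFactors (val a b e m) ≡ j [MOD k]), w a b e m) /
      ∑ m ∈ (Icc 1 N).filter (fun m => m ≡ u [MOD q]), w a b e m : ℝ) : ℂ)) atTop
      (nhds (∑ j ∈ range k, z ^ j * ((1 / (k : ℝ) : ℝ) : ℂ))) :=
    tendsto_finset_sum _ fun j _ => ((Complex.continuous_ofReal.tendsto _).comp (h1 j)).const_mul _
  rw [← sum_mul, hsum, zero_mul] at h4
  refine h4.congr fun N => ?_
  have h5 : ∀ m : ℕ, z ^ cardFactors (val a b e m) =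
      ∑ j ∈ range k, if cardFactors (val a b e m) ≡ j [MOD k] then z ^ j else 0 := by
    intro m
    rw [sum_eq_single (cardFactors (val a b e m) % k)]
    · rw [if_pos (Nat.mod_modEq _ _).symm]
      conv_lhs => rw [← Nat.mod_add_div (cardFactors (val a b e m)) k, pow_add, pow_mul, hz,
        one_pow, mul_one]
    · intro j hj hne
      rw [if_neg]
      intro h6
      apply hne
      have h7 : cardFactors (val a b e m) % k = j % k := h6
      rw [Nat.mod_eq_of_lt (mem_range.1 hj)] at h7
      exact h7.symm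
    · intro h6
      exact absurd (mem_range.2 (Nat.mod_lt _ (by omega))) h6
  push_cast
  simp only [← mul_div_assoc]
  rw [← sum_div]
  congr 1
  have h6 : ∀ j ∈ range k, z ^ j * ∑ m ∈ (Icc 1 N).filter
      (fun m => m ≡ u [MOD q] ∧ cardFactors (val a b e m) ≡ j [MOD k]), (w a b e m : ℂ) =
      ∑ m ∈ (Icc 1 N).filter (fun m => m ≡ u [MOD q]),
        (if cardFactors (val a b e m) ≡ j [MOD k] then z ^ j else 0) * (w a b e m : ℂ) := by
    intro j _
    rw [← filter_filter, sum_filter, mul_sum]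
    refine sum_congr rfl fun m _ => ?_
    split_ifs <;> ring
  rw [sum_congr rfl h6, sum_comm]
  refine sum_congr rfl fun m _ => ?_
  rw [← sum_mul, ← h5]

end Pool.Agent.Results.MP_648c71_nt.QuadraticLogCancellation
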