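import Mathlib
import Pool.Agent.W80.GE.Definite
import Pool.Agent.W80.GE.Indefinite

/-!
Liouville's function at products of shifts of a quadratic polynomial.

Let `f` be a quadratic polynomial with integer coefficients whose discriminant is not a square. The
theorems `DefiniteQuadraticSigns` and `IndefiniteQuadraticSigns` of this pool give both signs of
`λ(f(n))` on every arithmetic progression of positive integers. Hence the sequence `λ(f(n))` is not
eventually periodic, and so it satisfies no linear recurrence modulo squares.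
-/

set_option autoImplicit false

namespace Pool.Agent.Results.MP_648c71_nt.ShiftProducts

open Polynomial

/-- auxiliary: the Liouville function of an integer -/
private noncomputable def lam (m : ℤ) : ℤ := (-1) ^ ArithmeticFunction.cardFactors m.natAbs

private lemma lam_mul {m n : ℤ} (hm : m ≠ 0) (hn : n ≠ 0) : lam (m * n) = lam m * lam n := by
  unfold lam
  rw [Int.natAbs_mul, ArithmeticFunction.cardFactors_mul (Int.natAbs_ne_zero.2 hm)
    (Int.natAbs_ne_zero.2 hn), pow_add]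

private lemma lam_one : lam 1 = 1 := by
  unfold lam
  simp

private lemma lam_pm (m : ℤ) : lam m = 1 ∨ lam m = -1 := by
  unfold lam
  exact neg_one_pow_eq_or ℤ _

private lemma lam_sq {m : ℤ} (hm : m ≠ 0) : lam (m ^ 2) = 1 := by
  rw [sq, lam_mul hm hm]
  rcases lam_pm m with h | h <;> rw [h] <;> norm_num

private lemma lam_neg (m : ℤ) : lam (-m) = lam m := by
  unfold lam
  rw [Int.natAbs_neg]

private lemma lam_prod {ι : Type} (s : Finset ι) (g : ι → ℤ) (hg : ∀ i ∈ s, g i ≠ 0) :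
    lam (∏ i ∈ s, g i) = ∏ i ∈ s, lam (g i) := by
  classical
  induction s using Finset.induction_on with
  | empty => simp [lam_one]
  | insert i s hi ih =>
    rw [Finset.prod_insert hi, Finset.prod_insert hi, lam_mul (hg i (Finset.mem_insert_self i s)),
      ih fun j hj => hg j (Finset.mem_insert_of_mem hj)]
    exact Finset.prod_ne_zero_iff.2 fun j hj => hg j (Finset.mem_insert_of_mem hj)

/-- both signs infinitely often, positive leading coefficient -/
private lemma both_pos (a b c : ℤ) (ha : 0 < a) (hD : ¬ IsSquare (b ^ 2 - 4 * a * c)) (e : ℤ)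
    (he : e = 1 ∨ e = -1) (N₀ : ℕ) :
    ∃ n : ℕ, N₀ ≤ n ∧ lam (a * (n : ℤ) ^ 2 + b * n + c) = e := by
  rcases lt_trichotomy (b ^ 2 - 4 * a * c) 0 with h | h | h
  · have h1 := (Pool.Agent.W80.GE.definite_signs a b c ha h e he).2
    obtain ⟨n, hn, hn2⟩ := h1.exists_gt N₀
    exact ⟨n, hn2.le, hn.2⟩
  · exact absurd (h ▸ ⟨0, by norm_num⟩ : IsSquare (b ^ 2 - 4 * a * c)) hD
  · obtain ⟨N₁, h1⟩ := Pool.Agent.W80.GE.indefinite_signs a b c ha h hD
      e he (1 / 2) (by norm_num)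
    by_contra hcon
    push Not at hcon
    set N : ℕ := max N₁ ((N₀ + 2) ^ 2) with hN
    have h2 := h1 N (le_max_left _ _)
    have h3 : {n : ℕ | 1 ≤ n ∧ n ≤ N ∧ ∃ s m : ℕ, (s : ℝ) ≤ (N : ℝ) ^ ((1 : ℝ) / 2) ∧
        a * (n : ℤ) ^ 2 + b * n + c = (s : ℤ) ^ 2 * m ∧
        ArithmeticFunction.moebius m = e} ⊆ (Finset.range N₀ : Set ℕ) := by
      rintro n ⟨_, _, s, m, _, h5, h6⟩
      simp only [Finset.coe_range, Set.mem_Iio]
      by_contra h7
      push Not at h7
      apply hcon n h7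
      rw [h5]
      have hm : ArithmeticFunction.moebius m ≠ 0 := by
        rw [h6]
        rcases he with he | he <;> rw [he] <;> norm_num
      have hsf : Squarefree m := ArithmeticFunction.moebius_ne_zero_iff_squarefree.1 hm
      have hm0 : (m : ℤ) ≠ 0 := by exact_mod_cast hsf.ne_zero
      have hs0 : (s : ℤ) ≠ 0 := by
        rintro h8
        have h9 : a * (n : ℤ) ^ 2 + b * n + c = 0 := by rw [h5, h8]; ring
        apply hD
        refine ⟨2 * a * n + b, ?_⟩
        linear_combination (-4 * a) * h9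
      rw [lam_mul (pow_ne_zero 2 hs0) hm0, lam_sq hs0, one_mul, ← h6,
        ArithmeticFunction.moebius_apply_of_squarefree hsf]
      unfold lam
      rw [Int.natAbs_natCast]
    have h4 := Set.ncard_le_ncard h3 (Finset.finite_toSet _)
    rw [Set.ncard_coe_finset, Finset.card_range] at h4
    have h5 : (N : ℝ) ^ (1 - (1 : ℝ) / 2) ≤ N₀ := h2.trans (by exact_mod_cast h4)
    have h6 : ((N₀ + 2 : ℕ) : ℝ) ≤ (N : ℝ) ^ (1 - (1 : ℝ) / 2) := by
      have h7 : (((N₀ + 2) ^ 2 : ℕ) : ℝ) ≤ N := by exact_mod_cast le_max_right _ _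
      have h8 : ((N₀ + 2 : ℕ) : ℝ) = ((((N₀ + 2) ^ 2 : ℕ) : ℝ)) ^ (1 - (1 : ℝ) / 2) := by
        rw [show (1 : ℝ) - 1 / 2 = 1 / 2 by norm_num, ← Real.sqrt_eq_rpow]
        push_cast
        rw [Real.sqrt_sq (by positivity)]
      rw [h8]
      exact Real.rpow_le_rpow (by positivity) h7 (by norm_num)
    have h7 : ((N₀ + 2 : ℕ) : ℝ) ≤ N₀ := h6.trans h5
    push_cast at h7
    linarith

/-- both signs infinitely often -/
private lemma both (a b c : ℤ) (hD : ¬ IsSquare (b ^ 2 - 4 * a * c)) (e : ℤ)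
    (he : e = 1 ∨ e = -1) (N₀ : ℕ) :
    ∃ n : ℕ, N₀ ≤ n ∧ lam (a * (n : ℤ) ^ 2 + b * n + c) = e := by
  rcases lt_trichotomy a 0 with h | h | h
  · obtain ⟨n, hn, h1⟩ := both_pos (-a) (-b) (-c) (by linarith)
      (by rwa [show (-b) ^ 2 - 4 * (-a) * (-c) = b ^ 2 - 4 * a * c by ring]) e he N₀
    refine ⟨n, hn, ?_⟩
    rw [← h1, ← lam_neg]
    congr 1
    ring
  · exfalso
    apply hD
    rw [h]
    exact ⟨b, by ring⟩
  · exact both_pos a b c h hD e he N₀

/-- both signs on arithmetic progressions -/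
private lemma both_ap (a b c : ℤ) (hD : ¬ IsSquare (b ^ 2 - 4 * a * c)) (r : ℤ) (q : ℕ)
    (hq : 1 ≤ q) (e : ℤ) (he : e = 1 ∨ e = -1) (N₀ : ℕ) :
    ∃ n : ℕ, N₀ ≤ n ∧ lam (a * (r + q * n) ^ 2 + b * (r + q * n) + c) = e := by
  have hq0 : (q : ℤ) ≠ 0 := by
    have : (1 : ℤ) ≤ q := by exact_mod_cast hq
    omega
  obtain ⟨n, hn, h1⟩ := both (a * q ^ 2) (2 * a * r * q + b * q) (a * r ^ 2 + b * r + c) (by
    rintro ⟨t, ht⟩
    have h2 : (q : ℤ) ^ 2 * (b ^ 2 - 4 * a * c) = t ^ 2 := by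
      rw [sq t, ← ht]
      ring
    have h3 : (q : ℤ) ∣ t := by
      have : (q : ℤ) ^ 2 ∣ t ^ 2 := ⟨_, h2.symm⟩
      exact (Int.pow_dvd_pow_iff (by norm_num)).1 this
    obtain ⟨u, rfl⟩ := h3
    apply hD
    refine ⟨u, ?_⟩
    have h4 : (q : ℤ) ^ 2 * (b ^ 2 - 4 * a * c) = q ^ 2 * (u * u) := by rw [h2]; ring
    exact mul_left_cancel₀ (pow_ne_zero 2 hq0) h4) e he N₀
  refine ⟨n, hn, ?_⟩
  rw [← h1]
  congr 1
  ring

/-- **Main result.** Let `f(x) = a x² + b x + c` be a quadratic polynomial with integer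
coefficients whose discriminant `b² - 4 a c` is not a square, `H` a nonempty finite set of integers,
`G ≠ 0` a polynomial with integer coefficients, `k ≠ 0` an integer and
`F(x) = k G(x)² ∏_{h ∈ H} f(x + h)`. Then for every function `θ : ℤ → {1, -1}` of period `q` there are
infinitely many positive integers `n` with `λ(F(n)) = θ(n)`. -/
theorem result (a b c : ℤ) (hD : ¬ IsSquare (b ^ 2 - 4 * a * c)) (H : Finset ℤ)
    (hH : H.Nonempty) (k : ℤ) (hk : k ≠ 0) (G F : ℤ[X]) (hG : G ≠ 0)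
    (hF : F = C k * G ^ 2 * ∏ h ∈ H, (C a * (X + C h) ^ 2 + C b * (X + C h) + C c))
    (q : ℕ) (hq : 1 ≤ q) (θ : ℤ → ℤ) (hθ : ∀ n, θ n = 1 ∨ θ n = -1) (hper : ∀ n, θ (n + q) = θ n) :
    {n : ℕ | 1 ≤ n ∧
      (-1 : ℤ) ^ ArithmeticFunction.cardFactors (F.eval (n : ℤ)).natAbs = θ n}.Infinite := by
  classical
  intro hfin
  set f : ℤ → ℤ := fun x => a * x ^ 2 + b * x + c with hf
  have hf0 : ∀ x, f x ≠ 0 := by
    intro x hx
    apply hD
    refine ⟨2 * a * x + b, ?_⟩
    simp only [hf] at hx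
    linear_combination (-4 * a) * hx
  set x : ℤ → ℤ := fun n => lam (f n) with hx
  have hxpm : ∀ n, x n = 1 ∨ x n = -1 := fun n => lam_pm _
  -- the values of `F`
  have hFval : ∀ n : ℤ, F.eval n = k * (G.eval n) ^ 2 * ∏ h ∈ H, f (n + h) := by
    intro n
    rw [hF, eval_mul, eval_mul, eval_C, eval_pow, eval_prod]
    congr 1
    refine Finset.prod_congr rfl fun h _ => ?_
    simp [hf]
  have hlamF : ∀ n : ℤ, G.eval n ≠ 0 → lam (F.eval n) = lam k * ∏ h ∈ H, x (n + h) := by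
    intro n hn
    rw [hFval, lam_mul (mul_ne_zero hk (pow_ne_zero 2 hn))
      (Finset.prod_ne_zero_iff.2 fun h _ => hf0 _), lam_mul hk (pow_ne_zero 2 hn), lam_sq hn,
      mul_one, lam_prod _ _ fun h _ => hf0 _]
  -- beyond `N₀` there is no solution and no zero of `G`
  obtain ⟨N₀, hN₀⟩ : ∃ N₀ : ℕ, ∀ n : ℤ, (N₀ : ℤ) ≤ n → lam (F.eval n) ≠ θ n ∧ G.eval n ≠ 0 := by
    obtain ⟨N₁, h1⟩ := hfin.bddAbove
    have h2 : {n : ℤ | G.eval n = 0}.Finite := by
      have := G.roots.toFinset.finite_toSet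
      refine this.subset fun n hn => ?_
      simp only [Finset.mem_coe, Multiset.mem_toFinset]
      exact (mem_roots hG).2 hn
    obtain ⟨N₂, h3⟩ := h2.bddAbove
    refine ⟨max (N₁ + 1) (N₂.toNat + 1), fun n hn => ⟨fun h4 => ?_, fun h4 => ?_⟩⟩
    · have h5 : ((N₁ + 1 : ℕ) : ℤ) ≤ n := le_trans (by exact_mod_cast le_max_left _ _) hn
      lift n to ℕ using (by omega) with n'
      have h6 : n' ∈ {n : ℕ | 1 ≤ n ∧
          (-1 : ℤ) ^ ArithmeticFunction.cardFactors (F.eval (n : ℤ)).natAbs = θ n} := by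
        refine ⟨by omega, h4⟩
      have := h1 h6
      omega
    · have h5 : ((N₂.toNat + 1 : ℕ) : ℤ) ≤ n := le_trans (by exact_mod_cast le_max_right _ _) hn
      have h6 := h3 h4
      have h7 := Int.self_le_toNat N₂
      push_cast at h5
      omega
  -- the recurrence
  obtain ⟨hM, hMH, hMmax⟩ := H.exists_max_image id hH
  obtain ⟨hm, hmH, hmmin⟩ := H.exists_min_image id hH
  simp only [id] at hMmax hmmin
  have hrec : ∀ n : ℤ, (N₀ : ℤ) ≤ n →
      x (n + hM) = -θ n * lam k * ∏ h ∈ H.erase hM, x (n + h) := by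
    intro n hn
    obtain ⟨h1, h2⟩ := hN₀ n hn
    have h3 := hlamF n h2
    rw [← Finset.mul_prod_erase H (fun h => x (n + h)) hMH] at h3
    set P := ∏ h ∈ H.erase hM, x (n + h) with hP
    have hPpm : P = 1 ∨ P = -1 := by
      rw [hP]
      refine Finset.prod_induction _ (fun z => z = 1 ∨ z = -1) ?_ (Or.inl rfl) fun h _ => hxpm _
      rintro u v (rfl | rfl) (rfl | rfl) <;> norm_num
    have h4 := lam_pm (F.eval n)
    have h5 := lam_pm k
    have h6 := hθ n
    have h7 := hxpm (n + hM)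
    rcases h4 with h4 | h4 <;> rcases h5 with h5 | h5 <;> rcases h6 with h6 | h6 <;>
      rcases h7 with h7 | h7 <;> rcases hPpm with h8 | h8 <;>
      rw [h4, h5, h7, h8] at h3 <;> rw [h4, h6] at h1 <;> rw [h5, h6, h7, h8] <;>
      first | exact absurd rfl h1 | (exfalso; norm_num at h3; done) | norm_num
  -- the states
  have hperk : ∀ (j : ℕ) (n : ℤ), θ (n + q * j) = θ n := by
    intro j
    induction j with
    | zero => intro n; simp
    | succ j ih =>
      intro n
      rw [← ih n, ← hper (n + q * j)]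
      congr 1
      push_cast
      ring
  obtain ⟨D, hDdef⟩ : ∃ D : ℕ, (D : ℤ) = hM - hm :=
    ⟨(hM - hm).toNat, Int.toNat_of_nonneg (by linarith [hMmax hm hmH])⟩
  have hmaps : ∃ n₁ n₂ : ℕ, n₁ < n₂ ∧ (n₁ : ZMod q) = n₂ ∧
      ∀ i : ℕ, i < D → x (N₀ + n₁ + hm + i) = x (N₀ + n₂ + hm + i) := by
    have : NeZero q := ⟨by omega⟩
    let S : ℕ → ZMod q × (Fin D → Bool) := fun n =>
      ((n : ZMod q), fun i => decide (x (N₀ + n + hm + (i : ℕ)) = 1))
    obtain ⟨n₁, n₂, hne, heq⟩ := Finite.exists_ne_map_eq_of_infinite S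
    have key : ∀ n₁ n₂ : ℕ, S n₁ = S n₂ → (n₁ : ZMod q) = n₂ ∧
        ∀ i : ℕ, i < D → x (N₀ + n₁ + hm + i) = x (N₀ + n₂ + hm + i) := by
      intro n₁ n₂ h
      have h1 := congrArg Prod.fst h
      have h2 := congrArg Prod.snd h
      refine ⟨h1, fun i hi => ?_⟩
      have h3 := congrFun h2 ⟨i, hi⟩
      simp only [S, decide_eq_decide] at h3
      rcases hxpm (N₀ + n₁ + hm + i) with h4 | h4 <;> rcases hxpm (N₀ + n₂ + hm + i) with h5 | h5
      · rw [h4, h5]
      · have := h3.1 h4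
        rw [h5] at this
        norm_num at this
      · have := h3.2 h5
        rw [h4] at this
        norm_num at this
      · rw [h4, h5]
    rcases lt_or_gt_of_ne hne with h | h
    · exact ⟨n₁, n₂, h, key n₁ n₂ heq⟩
    · exact ⟨n₂, n₁, h, key n₂ n₁ heq.symm⟩
  obtain ⟨n₁, n₂, hlt, hmod, hinit⟩ := hmaps
  obtain ⟨P, hP⟩ : ∃ P : ℕ, n₂ = n₁ + P ∧ 1 ≤ P := ⟨n₂ - n₁, by omega, by omega⟩
  obtain ⟨hP1, hP2⟩ := hP
  have hqP : q ∣ P := by
    rw [hP1, ZMod.natCast_eq_natCast_iff] at hmod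
    have := (Nat.modEq_iff_dvd' (by omega)).1 hmod
    rwa [Nat.add_sub_cancel_left] at this
  obtain ⟨P', hP'⟩ := hqP
  have hθP : ∀ n : ℤ, θ (n + P) = θ n := by
    intro n
    rw [← hperk P' n, hP']
    push_cast
    rfl
  have hall : ∀ i : ℕ, x (N₀ + n₁ + hm + i) = x (N₀ + n₂ + hm + i) := by
    intro i
    induction i using Nat.strong_induction_on with
    | _ i ih =>
      rcases Nat.lt_or_ge i D with h | h
      · exact hinit i h
      · have e1 : (N₀ : ℤ) + n₁ + hm + i = (N₀ + n₁ + (i - D : ℕ)) + hM := by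
          push_cast [Nat.cast_sub h]
          linarith
        have e2 : (N₀ : ℤ) + n₂ + hm + i = (N₀ + n₂ + (i - D : ℕ)) + hM := by
          push_cast [Nat.cast_sub h]
          linarith
        rw [e1, e2, hrec _ (by omega), hrec _ (by omega)]
        have e3 : θ (N₀ + n₁ + (i - D : ℕ)) = θ (N₀ + n₂ + (i - D : ℕ)) := by
          rw [← hθP (N₀ + n₁ + (i - D : ℕ)), hP1]
          congr 1
          push_cast
          ring
        rw [e3]
        congr 1
        refine Finset.prod_congr rfl fun h' hh' => ?_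
        have h1 : h' ∈ H := Finset.mem_of_mem_erase hh'
        have h2 : h' ≠ hM := Finset.ne_of_mem_erase hh'
        have h3 := hMmax h' h1
        have h4 := hmmin h' h1
        have h5 : h' < hM := lt_of_le_of_ne h3 h2
        obtain ⟨j, hj⟩ : ∃ j : ℕ, (j : ℤ) = (i - D : ℕ) + (h' - hm) :=
          ⟨((i - D : ℕ) + (h' - hm)).toNat, Int.toNat_of_nonneg (by omega)⟩
        have h6 : j < i := by omega
        have h7 := ih j h6
        rw [hj] at h7
        have e4 : (N₀ : ℤ) + n₁ + (i - D : ℕ) + h' = N₀ + n₁ + hm + ((i - D : ℕ) + (h' - hm)) := by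
          ring
        have e5 : (N₀ : ℤ) + n₂ + (i - D : ℕ) + h' = N₀ + n₂ + hm + ((i - D : ℕ) + (h' - hm)) := by
          ring
        rw [e4, e5]
        exact h7
  -- so `x` is constant on an arithmetic progression
  have hconst : ∀ j : ℕ, x ((N₀ + n₁ + hm) + P * j) = x (N₀ + n₁ + hm) := by
    intro j
    induction j with
    | zero => simp
    | succ j ih =>
      rw [← ih]
      have h1 := hall (P * j)
      rw [hP1] at h1
      push_cast at h1 ⊢
      rw [h1]
      congr 1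
      ring
  rcases hxpm (N₀ + n₁ + hm) with h1 | h1
  · obtain ⟨j, -, h2⟩ := both_ap a b c hD (N₀ + n₁ + hm) P hP2 (-1) (Or.inr rfl) 0
    have h3 := hconst j
    simp only [hx, hf] at h3 h1
    rw [h2, h1] at h3
    norm_num at h3
  · obtain ⟨j, -, h2⟩ := both_ap a b c hD (N₀ + n₁ + hm) P hP2 1 (Or.inl rfl) 0
    have h3 := hconst j
    simp only [hx, hf] at h3 h1
    rw [h2, h1] at h3
    norm_num at h3

end Pool.Agent.Results.MP_648c71_nt.ShiftProducts
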