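import Pool.Agent.W81.RL.Fun

/-!
Chowla's conjecture in arithmetic progressions for the polynomials `f + c`, `f` arbitrary of degree
`d ≥ 2`, and almost all constants `c` of every interval of length at least `x^(d-1) (log x)^B`, for
Liouville's function and for the Moebius function, with all progressions of modulus at most
`(log x)^C` and all `y ≤ x` at once.
-/

set_option autoImplicit false

namespace Pool.Agent.Results.MP_648c71_nt.ShortIntervalConstants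

open Finset Filter Polynomial

/-- Liouville's function `λ(m) = (-1)^Ω(|m|)`, with `λ(0) = 0` -/
noncomputable def liouville (m : ℤ) : ℤ :=
  if m = 0 then 0 else (-1) ^ (ArithmeticFunction.cardFactors m.natAbs)

/-- the Moebius function of `|m|`, with `μ(0) = 0` -/
def moebius (m : ℤ) : ℤ := ArithmeticFunction.moebius m.natAbs

/-- the sum of `g(f(n) + c)` over the integers `1 ≤ n ≤ y` with `n ≡ b mod q` -/
def progSum (g : ℤ → ℤ) (f : ℤ[X]) (c : ℤ) (q : ℕ) (b : ℤ) (y : ℕ) : ℤ :=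
  ∑ n ∈ (Icc 1 y).filter (fun n : ℕ => (q : ℤ) ∣ (n : ℤ) - b), g (f.eval (n : ℤ) + c)

open Classical in
/-- **Chowla's conjecture for almost all constant terms of short intervals.** Let `f` be an integer
polynomial of degree `d ≥ 2`, and let `C` and `U` be given. There are `B` and `x₀` such that for all
`x ≥ x₀` and every interval `(c₀, c₀ + A]` with `|c₀| ≤ x^d (log x)^C` and
`x^(d-1) (log x)^B ≤ A ≤ x^d (log x)^C`, all integers `c` of the interval but at most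
`A / (log x)^U` satisfy `|∑_{n ≤ y, n ≡ b mod q} g(f(n) + c)| ≤ x / (log x)^U` simultaneously for
both functions `g = λ, μ`, all moduli `1 ≤ q ≤ (log x)^C`, all residues `b` and all `y ≤ x`. -/
theorem result (f : ℤ[X]) (hf : 2 ≤ f.natDegree) (C U : ℕ) : ∃ B x0 : ℕ, ∀ x : ℕ, x0 ≤ x →
    ∀ (c0 : ℤ) (A : ℕ), |(c0 : ℝ)| ≤ (x : ℝ) ^ f.natDegree * Real.log x ^ C →
    (x : ℝ) ^ (f.natDegree - 1) * Real.log x ^ B ≤ A →
    (A : ℝ) ≤ (x : ℝ) ^ f.natDegree * Real.log x ^ C →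
    ((((Ioc c0 (c0 + A)).filter (fun c : ℤ => ∃ g : ℤ → ℤ, (g = liouville ∨ g = moebius) ∧
      ∃ q : ℕ, 1 ≤ q ∧ (q : ℝ) ≤ Real.log x ^ C ∧ ∃ b : ℤ, ∃ y ≤ x,
        (x : ℝ) / Real.log x ^ U < |((progSum g f c q b y : ℤ) : ℝ)|)).card : ℕ) : ℝ) ≤
      A / Real.log x ^ U := by
  obtain ⟨B1, h1⟩ := Pool.Agent.W81.RL.apS Pool.Agent.H373R2.T7.liR Pool.Agent.H373R2.T7.liR_norm
    (Pool.Agent.W81.RL.supE_of _ Pool.Agent.H373R2.T7.sup_liou) f hf C (U + 1)
  obtain ⟨B2, h2⟩ := Pool.Agent.W81.RL.apS Pool.Agent.H373R2.T7.muC Pool.Agent.H373R2.T7.muC_norm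
    (Pool.Agent.W81.RL.supE_of _ Pool.Agent.H373R2.T7.sup_muC) f hf C (U + 1)
  obtain ⟨x0, hx0⟩ := eventually_atTop.mp (h1.and (h2.and (Pool.Agent.H442R2.EHI.evt_log_ge 2)))
  refine ⟨max B1 B2, x0, fun x hx c0 A hc0 hA1 hA2 => ?_⟩
  obtain ⟨hL1, hL2, hL⟩ := hx0 x hx
  have hlog1 : 1 ≤ Real.log x := by linarith
  have hlog0 : 0 < Real.log x := by linarith
  obtain ⟨Bad1, hb1, hg1⟩ := hL1 c0 A hc0
    ((mul_le_mul_of_nonneg_left (pow_le_pow_right₀ hlog1 (le_max_left B1 B2)) (by positivity)).trans hA1) hA2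
  obtain ⟨Bad2, hb2, hg2⟩ := hL2 c0 A hc0
    ((mul_le_mul_of_nonneg_left (pow_le_pow_right₀ hlog1 (le_max_right B1 B2)) (by positivity)).trans hA1) hA2
  have hsub : (Ioc c0 (c0 + A)).filter (fun c : ℤ => ∃ g : ℤ → ℤ, (g = liouville ∨ g = moebius) ∧
      ∃ q : ℕ, 1 ≤ q ∧ (q : ℝ) ≤ Real.log x ^ C ∧ ∃ b : ℤ, ∃ y ≤ x,
        (x : ℝ) / Real.log x ^ U < |((progSum g f c q b y : ℤ) : ℝ)|) ⊆ Bad1 ∪ Bad2 := by
    intro c hc
    rw [mem_filter, mem_Ioc] at hc
    obtain ⟨⟨hc1, hc2⟩, g, hg, q, hq1, hqL, b, y, hy, hlt⟩ := hc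
    by_contra hcon
    rw [mem_union, not_or] at hcon
    have hq0 : (0 : ℤ) < q := by exact_mod_cast hq1
    have hbq : (b % (q : ℤ)).toNat < q := by
      have h3 := Int.emod_nonneg b hq0.ne'
      have h4 := Int.emod_lt_of_pos b hq0
      omega
    have hfil : (Icc 1 y).filter (fun n : ℕ => (q : ℤ) ∣ (n : ℤ) - b) =
        (Icc 1 y).filter (fun n : ℕ => n % q = (b % (q : ℤ)).toNat) :=
      filter_congr fun n _ => Pool.Agent.W81.RL.dvd_iff_mod q hq1 b n
    have hup : (x : ℝ) / Real.log x ^ (U + 1) ≤ x / Real.log x ^ U := by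
      apply div_le_div_of_nonneg_left (Nat.cast_nonneg _) (by positivity)
      exact pow_le_pow_right₀ hlog1 (by omega)
    have hnorm : ∀ v : ℤ, |(v : ℝ)| = ‖((v : ℤ) : ℂ)‖ := by
      intro v
      rw [Complex.norm_intCast]
    rw [hnorm] at hlt
    unfold progSum at hlt
    rw [hfil] at hlt
    push_cast at hlt
    rcases hg with rfl | rfl
    · have h3 := hg1 c hc1 hc2 hcon.1 q hq1 hqL _ hbq y hy
      have h4 : ∑ n ∈ (Icc 1 y).filter (fun n : ℕ => n % q = (b % (q : ℤ)).toNat),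
          ((liouville (f.eval (n : ℤ) + c) : ℤ) : ℂ) =
          ∑ n ∈ (Icc 1 y).filter (fun n : ℕ => n % q = (b % (q : ℤ)).toNat),
          Pool.Agent.W81.RL.habs Pool.Agent.H373R2.T7.liR (f.eval (n : ℤ) + c) :=
        sum_congr rfl fun n _ => Pool.Agent.W81.RL.lamI'_eq _
      rw [h4] at hlt
      linarith
    · have h3 := hg2 c hc1 hc2 hcon.2 q hq1 hqL _ hbq y hy
      have h4 : ∑ n ∈ (Icc 1 y).filter (fun n : ℕ => n % q = (b % (q : ℤ)).toNat),
          ((moebius (f.eval (n : ℤ) + c) : ℤ) : ℂ) =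
          ∑ n ∈ (Icc 1 y).filter (fun n : ℕ => n % q = (b % (q : ℤ)).toNat),
          Pool.Agent.W81.RL.habs Pool.Agent.H373R2.T7.muC (f.eval (n : ℤ) + c) :=
        sum_congr rfl fun n _ => Pool.Agent.W81.RL.muI'_eq _
      rw [h4] at hlt
      linarith
  have hcard : ((((Ioc c0 (c0 + A)).filter (fun c : ℤ => ∃ g : ℤ → ℤ, (g = liouville ∨ g = moebius) ∧
      ∃ q : ℕ, 1 ≤ q ∧ (q : ℝ) ≤ Real.log x ^ C ∧ ∃ b : ℤ, ∃ y ≤ x,
        (x : ℝ) / Real.log x ^ U < |((progSum g f c q b y : ℤ) : ℝ)|)).card : ℕ) : ℝ) ≤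
      Bad1.card + Bad2.card := by
    have h3 := card_le_card hsub
    have h4 := card_union_le Bad1 Bad2
    exact_mod_cast h3.trans h4
  refine hcard.trans ((add_le_add hb1 hb2).trans ?_)
  rw [← add_div, div_le_div_iff₀ (by positivity) (by positivity), pow_succ]
  have h8 : 0 ≤ (A : ℝ) * Real.log x ^ U := by positivity
  nlinarith

end Pool.Agent.Results.MP_648c71_nt.ShortIntervalConstants
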