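import Pool.Agent.H534R2.BH_Lam
import Pool.Agent.W81.FC.Thin

/-!
Chowla's conjecture for almost all polynomials `f = a + R(X) + σ d X^j`, `σ = 1` or `σ = -1`,
`a₀ < a ≤ a₀ + A`, `D < d ≤ 2D`, `R` fixed, in every box with `A D ≥ x (log x)^B`, where `x` bounds
the values of the polynomials.
-/

set_option autoImplicit false

namespace Pool.Agent.Results.MP_648c71_nt.ThinBoxes

open Finset Polynomial

/-- Liouville's function `λ(m) = (-1)^Ω(|m|)`, with `λ(0) = 0` -/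
noncomputable def liouville (m : ℤ) : ℤ :=
  if m = 0 then 0 else (-1) ^ (ArithmeticFunction.cardFactors m.natAbs)

/-- the polynomial `a + R + σ d X^j` -/
noncomputable def pol (R : ℤ[X]) (j : ℕ) (σ : ℤ) (a d : ℕ) : ℤ[X] :=
  C (a : ℤ) + R + C (σ * (d : ℤ)) * X ^ j

/-- the sum of `λ(f(n))` over `1 ≤ n ≤ K` -/
noncomputable def chowlaSum (f : ℤ[X]) (K : ℕ) : ℤ := ∑ n ∈ Icc 1 K, liouville (f.eval (n : ℤ))

open Classical in
/-- **Chowla's conjecture for almost all polynomials of a thin box.** Let `j ≥ 1`, `ε > 0`, `C`, `U`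
be given, and let `B` and then `x` be large in terms of these. Let `K ≥ x^ε`, let `R` be an integer
polynomial with `|R(n)| ≤ K^j / (log x)^B` for `1 ≤ n ≤ K`, and let `A D ≥ x (log x)^B`,
`x ≤ C D K^j`. Let either `σ = 1` and `a₀ + A + 2 D K^j + K^j ≤ x`, or `σ = -1`,
`2 D K^j + K^j ≤ a₀` and `a₀ + A + K^j ≤ x`. Then of the `A D` polynomials
`f = a + R + σ d X^j`, `a₀ < a ≤ a₀ + A`, `D < d ≤ 2D`, all but at most `A D / (log x)^U` satisfy
`|∑_{n ≤ K} λ(f(n))| ≤ K / (log x)^U`. -/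
theorem result (j : ℕ) (hj : 1 ≤ j) (ε : ℝ) (hε : 0 < ε) (C : ℝ) (U : ℕ) : ∃ B x0 : ℕ,
    ∀ x : ℕ, x0 ≤ x → ∀ (K D A a0 : ℕ) (R : ℤ[X]) (σ : ℤ),
    ((σ = 1 ∧ a0 + A + 2 * D * K ^ j + K ^ j ≤ x) ∨
      (σ = -1 ∧ 2 * D * K ^ j + K ^ j ≤ a0 ∧ a0 + A + K ^ j ≤ x)) →
    (x : ℝ) ≤ C * D * (K : ℝ) ^ j → (x : ℝ) ^ ε ≤ K → x * Real.log x ^ B ≤ (A : ℝ) * D →
    (∀ n ∈ Icc 1 K, |((R.eval (n : ℤ) : ℤ) : ℝ)| ≤ (K : ℝ) ^ j / Real.log x ^ B) →
    ((((Ioc a0 (a0 + A)) ×ˢ (Ioc D (2 * D))).filter (fun ad : ℕ × ℕ =>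
      (K : ℝ) / Real.log x ^ U < |((chowlaSum (pol R j σ ad.1 ad.2) K : ℤ) : ℝ)|)).card : ℝ) ≤
      A * D / Real.log x ^ U := by
  set g : ℕ → ℂ := fun n => if n = 0 then 0 else (-1 : ℂ) ^ (ArithmeticFunction.cardFactors n) with hg
  have hg1 : ∀ n, ‖g n‖ ≤ 1 := by
    intro n
    rw [hg]
    simp only []
    split_ifs
    · simp
    · rw [norm_pow, norm_neg, norm_one, one_pow]
  obtain ⟨B, x0, h⟩ := Pool.Agent.W81.FC.thin_abs j hj ε hε C U g hg1 (by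
    intro E1 E3
    obtain ⟨x0, h⟩ := Pool.Agent.H534R2.BH.lam_fourier E1 E3
    refine ⟨x0, fun x hx q hq hqL b β hβ => ?_⟩
    refine le_trans (le_of_eq ?_) (h x hx q hq hqL b β hβ)
    congr 1
    refine sum_congr rfl fun n hn => ?_
    rw [mem_Icc] at hn
    rw [hg]
    simp only []
    rw [if_neg (by omega)])
  refine ⟨B, x0, fun x hx K D A a0 R σ hbox hC hK hAD hR => ?_⟩
  refine le_trans (le_of_eq ?_) (h x hx K D A a0 R σ hbox hC hK hAD hR)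
  rw [Nat.cast_inj]
  apply congrArg Finset.card
  apply filter_congr
  intro ad _
  have h1 : (((chowlaSum (pol R j σ ad.1 ad.2) K : ℤ) : ℝ) : ℂ) =
      ∑ k ∈ Icc 1 K, g ((Pool.Agent.H300R2.BH.FF R j σ ad.1 ad.2).eval (k : ℤ)).natAbs := by
    unfold chowlaSum
    push_cast
    refine sum_congr rfl fun n _ => ?_
    have h2 : (Pool.Agent.H300R2.BH.FF R j σ ad.1 ad.2) = pol R j σ ad.1 ad.2 := rfl
    rw [h2, hg]
    unfold liouville
    simp only []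
    by_cases h0 : (pol R j σ ad.1 ad.2).eval (n : ℤ) = 0
    · rw [if_pos h0, if_pos (by rw [h0]; rfl)]
      simp
    · rw [if_neg h0, if_neg (by omega)]
      push_cast
      rfl
  rw [← h1, Complex.norm_real, Real.norm_eq_abs]

end Pool.Agent.Results.MP_648c71_nt.ThinBoxes
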