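import Pool.Agent.H220M.Fin7
import Pool.Agent.H220M.M1
import Pool.Agent.H220M.M2
import Pool.Agent.H220M.M3
import Pool.Agent.H220M.M4a
import Pool.Agent.H220M.M4
import Pool.Agent.H220M.M5
import Pool.Agent.H220M.M6a
import Pool.Agent.H220M.M6b
import Pool.Agent.H220M.M6
import Pool.Agent.H220M.P2

/-!
# Polynomial values: almost every modification of `λ` on a set of primes

For almost every choice of signs on the set `Q` of primes the modified completely multiplicative
function cancels at the values of every polynomial `F` with integer coefficients, along every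
arithmetic progression, provided the primes of `Q` modulo which `F` has a simple root have sums of
reciprocals over `((log₂ y)^2, y]` tending to infinity.
-/

set_option autoImplicit false

namespace Pool.Agent.Results.MP_648c71_nt.ThinRandomSignsPoly

open Filter MeasureTheory Finset Polynomial Pool.Agent.H220M

theorem result (g : ℕ →*₀ ℤ) (hg : ∀ p : ℕ, p.Prime → g p = 1 ∨ g p = -1)
    (Q : Set ℕ) (hQp : ∀ q ∈ Q, q.Prime) :
    ∀ᵐ ω ∂coins, ∃! f : ℕ →*₀ ℤ, IsModif g Q ω f ∧
      ∀ F : ℤ[X], Thick {q | q ∈ Q ∧ SimpleRoot F q} → ∀ a b : ℕ,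
        Tendsto (fun x : ℕ => (∑ n ∈ (Icc 1 x).filter (fun n => n ≡ a [MOD b]),
          ((f ((F.eval (n : ℤ)).natAbs) : ℤ) : ℝ)) / x) atTop (nhds 0) :=
  finalE (tM6 tC0 (tM5 tM1 tM2 tM3 (tM4 tP2 tM4a)) tM6a tM6b) g hg Q hQp

end Pool.Agent.Results.MP_648c71_nt.ThinRandomSignsPoly
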